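import Pool.Agent.TH839.NA.Raw
import Pool.Agent.W355.UN.Inst

/-!
# Products of L-functions
-/

set_option autoImplicit false

open Complex MeasureTheory Filter Topology Set
open scoped ComplexConjugate

namespace Pool.Agent.Y23.G.PR

open Pool.Agent.W169.HF Pool.Agent.W355.UN Pool.Agent.TH839.NA

/-- raw data with a list of parameters, `Re > -1/2` -/
structure RL (l : List ℂ) (r : ℕ) (N : ℝ) (b c : ℕ → ℂ) (X : ℂ → ℂ) : Prop where
  raw : RawT (1 / 2) l.length r N (fun j => l.get j) b c X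
  str : ∀ a ∈ l, -1 / 2 < a.re

/-- the convolution -/
noncomputable def cv (b₁ b₂ : ℕ → ℂ) (n : ℕ) : ℂ := ∑ p ∈ n.divisorsAntidiagonal, b₁ p.1 * b₂ p.2

lemma conv_anti {b c : ℕ → ℂ} (h : Conv b c) {n : ℕ} (hn : n ≠ 0) : b n * ((Real.log n : ℝ) : ℂ) =
    ∑ p ∈ n.divisorsAntidiagonal, ((ArithmeticFunction.vonMangoldt p.1 : ℝ) : ℂ) * c p.1 * b p.2 := by
  rw [h n hn, Nat.sum_divisorsAntidiagonal (fun i j => ((ArithmeticFunction.vonMangoldt i : ℝ) : ℂ) * c i * b j)]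

/-- the arithmetic function of a sequence -/
def af (b : ℕ → ℂ) : ArithmeticFunction ℂ := ⟨fun n => if n = 0 then 0 else b n, by simp⟩

lemma af_apply {b : ℕ → ℂ} {n : ℕ} (hn : n ≠ 0) : af b n = b n := by
  show (if n = 0 then 0 else b n) = b n
  rw [if_neg hn]

lemma af_mul (b₁ b₂ : ℕ → ℂ) {n : ℕ} (hn : n ≠ 0) : (af b₁ * af b₂) n = cv b₁ b₂ n := by
  rw [ArithmeticFunction.mul_apply]
  refine Finset.sum_congr rfl fun p hp => ?_
  have h1 := Nat.mem_divisorsAntidiagonal.1 hp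
  have h2 : p.1 ≠ 0 := fun h => hn (by rw [← h1.1, h, zero_mul])
  have h3 : p.2 ≠ 0 := fun h => hn (by rw [← h1.1, h, mul_zero])
  rw [af_apply h2, af_apply h3]

lemma conv_af {b c : ℕ → ℂ} : Conv b c ↔ ∀ n : ℕ, n ≠ 0 → b n * ((Real.log n : ℝ) : ℂ) =
    (af (fun n => ((ArithmeticFunction.vonMangoldt n : ℝ) : ℂ) * c n) * af b) n := by
  constructor
  · intro h n hn
    rw [conv_anti h hn, af_mul _ _ hn]
    rfl
  · intro h n hn
    rw [h n hn, af_mul _ _ hn]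
    unfold cv
    rw [Nat.sum_divisorsAntidiagonal (fun i j => ((ArithmeticFunction.vonMangoldt i : ℝ) : ℂ) * c i * b j)]

theorem conv_mul {b₁ c₁ b₂ c₂ : ℕ → ℂ} (h₁ : Conv b₁ c₁) (h₂ : Conv b₂ c₂) :
    Conv (cv b₁ b₂) (fun n => c₁ n + c₂ n) := by
  rw [conv_af] at h₁ h₂ ⊢
  intro n hn
  have e0 : af (fun n => ((ArithmeticFunction.vonMangoldt n : ℝ) : ℂ) * (c₁ n + c₂ n)) =
      af (fun n => ((ArithmeticFunction.vonMangoldt n : ℝ) : ℂ) * c₁ n) +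
        af (fun n => ((ArithmeticFunction.vonMangoldt n : ℝ) : ℂ) * c₂ n) := by
    ext k
    rw [ArithmeticFunction.add_apply]
    by_cases hk : k = 0
    · rw [hk]; simp
    · rw [af_apply hk, af_apply hk, af_apply hk, mul_add]
  have e1 : af (cv b₁ b₂) = af b₁ * af b₂ := by
    ext k
    by_cases hk : k = 0
    · rw [hk]; simp
    · rw [af_mul _ _ hk, af_apply hk]
  rw [e0, e1, add_mul]
  set A₁ := af (fun n => ((ArithmeticFunction.vonMangoldt n : ℝ) : ℂ) * c₁ n)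
  set A₂ := af (fun n => ((ArithmeticFunction.vonMangoldt n : ℝ) : ℂ) * c₂ n)
  have e2 : A₁ * (af b₁ * af b₂) = (A₁ * af b₁) * af b₂ := by rw [mul_assoc]
  have e3 : A₂ * (af b₁ * af b₂) = af b₁ * (A₂ * af b₂) := by
    rw [← mul_assoc, mul_comm A₂, mul_assoc]
  rw [e2, e3, ArithmeticFunction.add_apply, ArithmeticFunction.mul_apply, ArithmeticFunction.mul_apply,
    ← Finset.sum_add_distrib]
  unfold cv
  rw [Finset.sum_mul]
  refine Finset.sum_congr rfl fun p hp => ?_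
  have g1 := Nat.mem_divisorsAntidiagonal.1 hp
  have g2 : p.1 ≠ 0 := fun h => hn (by rw [← g1.1, h, zero_mul])
  have g3 : p.2 ≠ 0 := fun h => hn (by rw [← g1.1, h, mul_zero])
  rw [← h₁ _ g2, ← h₂ _ g3, af_apply g2, af_apply g3, ← g1.1]
  have e4 : Real.log ((p.1 * p.2 : ℕ) : ℝ) = Real.log p.1 + Real.log p.2 := by
    rw [Nat.cast_mul, Real.log_mul (by exact_mod_cast g2) (by exact_mod_cast g3)]
  rw [e4]
  push_cast
  ring

lemma lser_cv {b₁ b₂ : ℕ → ℂ} {s : ℂ} (h₁ : LSeriesSummable b₁ s) (h₂ : LSeriesSummable b₂ s) :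
    LSeries (cv b₁ b₂) s = LSeries b₁ s * LSeries b₂ s := by
  have e : LSeries (cv b₁ b₂) s = LSeries (LSeries.convolution b₁ b₂) s := by
    refine LSeries_congr (fun {n} hn => ?_) s
    rw [LSeries.convolution_def]
    rfl
  rw [e]
  exact LSeries_convolution' h₁ h₂

theorem mul {l₁ l₂ : List ℂ} {r₁ r₂ : ℕ} {N₁ N₂ : ℝ} {b₁ b₂ c₁ c₂ : ℕ → ℂ} {X₁ X₂ : ℂ → ℂ}
    (h₁ : RL l₁ r₁ N₁ b₁ c₁ X₁) (h₂ : RL l₂ r₂ N₂ b₂ c₂ X₂) :
    RL (l₁ ++ l₂) (r₁ + r₂) (N₁ * N₂) (cv b₁ b₂) (fun n => c₁ n + c₂ n) (fun s => X₁ s * X₂ s) := by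
  obtain ⟨h₁, s₁⟩ := h₁
  obtain ⟨h₂, s₂⟩ := h₂
  have hstr : ∀ a ∈ l₁ ++ l₂, -1 / 2 < a.re := by
    intro a ha
    rcases List.mem_append.1 ha with h | h
    · exact s₁ a h
    · exact s₂ a h
  have hN1 := h₁.hN
  have hN2 := h₂.hN
  refine ⟨⟨?_, ?_, by nlinarith, by norm_num, by norm_num, fun j => (hstr _ (List.get_mem _ _)).le,
    h₁.entire.mul h₂.entire, ?_, ?_, ?_, ?_, conv_mul h₁.conv h₂.conv, ?_⟩, hstr⟩
  · have := h₁.hm
    rw [List.length_append]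
    omega
  · have := h₁.hr
    have := h₂.hr
    rw [List.length_append]
    omega
  · obtain ⟨A₁, ρ₁, g₁⟩ := h₁.order
    obtain ⟨A₂, ρ₂, g₂⟩ := h₂.order
    refine ⟨|A₁| + |A₂|, max ρ₁ ρ₂, fun s => ?_⟩
    rw [norm_mul]
    have hs : (1 : ℝ) ≤ 1 + ‖s‖ := by linarith [norm_nonneg s]
    have k₁ : A₁ * (1 + ‖s‖) ^ ρ₁ ≤ |A₁| * (1 + ‖s‖) ^ (max ρ₁ ρ₂) :=
      (mul_le_mul_of_nonneg_right (le_abs_self _) (by positivity)).trans
        (mul_le_mul_of_nonneg_left (Real.rpow_le_rpow_of_exponent_le hs (le_max_left _ _)) (abs_nonneg _))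
    have k₂ : A₂ * (1 + ‖s‖) ^ ρ₂ ≤ |A₂| * (1 + ‖s‖) ^ (max ρ₁ ρ₂) :=
      (mul_le_mul_of_nonneg_right (le_abs_self _) (by positivity)).trans
        (mul_le_mul_of_nonneg_left (Real.rpow_le_rpow_of_exponent_le hs (le_max_right _ _)) (abs_nonneg _))
    rw [add_mul, Real.exp_add]
    exact mul_le_mul ((g₁ s).trans (Real.exp_le_exp.2 k₁)) ((g₂ s).trans (Real.exp_le_exp.2 k₂))
      (norm_nonneg _) (Real.exp_nonneg _)
  · obtain ⟨w₁, hw₁, g₁⟩ := h₁.fe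
    obtain ⟨w₂, hw₂, g₂⟩ := h₂.fe
    refine ⟨w₁ * w₂, by rw [norm_mul, hw₁, hw₂, one_mul], fun s => ?_⟩
    rw [map_mul, g₁ s, g₂ s]
    ring
  · unfold cv
    rw [Nat.divisorsAntidiagonal_one, Finset.sum_singleton, h₁.one, h₂.one, one_mul]
  · intro n
    rw [List.length_append, Nat.cast_add, add_mul]
    exact (norm_add_le _ _).trans (add_le_add (h₁.cb n) (h₂.cb n))
  · obtain ⟨σ₁, g₁⟩ := h₁.eq
    obtain ⟨σ₂, g₂⟩ := h₂.eq
    refine ⟨max (max σ₁ σ₂) 2, fun s hs => ?_⟩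
    have k₁ : σ₁ ≤ s.re := le_trans (le_trans (le_max_left _ _) (le_max_left _ _)) hs
    have k₂ : σ₂ ≤ s.re := le_trans (le_trans (le_max_right _ _) (le_max_left _ _)) hs
    have k₃ : 2 ≤ s.re := le_trans (le_max_right _ _) hs
    rw [g₁ s k₁, g₂ s k₂, lser_cv (RawT.coef h₁ (by linarith)).1 (RawT.coef h₂ (by linarith)).1]
    rw [prod_get l₁ (fun a : ℂ => Gammaℝ (s + a)), prod_get l₂ (fun a : ℂ => Gammaℝ (s + a)),
      prod_get (l₁ ++ l₂) (fun a : ℂ => Gammaℝ (s + a)), List.map_append, List.prod_append, pow_add]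
    have e : ((N₁ * N₂ : ℝ) : ℂ) ^ (s / 2) = (N₁ : ℂ) ^ (s / 2) * (N₂ : ℂ) ^ (s / 2) := by
      rw [Complex.ofReal_mul, Complex.mul_cpow_ofReal_nonneg (by linarith) (by linarith)]
    rw [e]
    ring

/-- from a raw L-function with traces bounded by the degree -/
theorem of_rawL {l : List ℂ} {r : ℕ} {N : ℝ} {b c : ℕ → ℂ} {X : ℂ → ℂ} (h : RawL l r N b c X)
    (hl : ∀ a ∈ l, -1 / 2 < a.re) : RL l r N b (fun n => if n = 0 then 0 else c n) X := by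
  refine ⟨⟨h.hm, h.hr, h.hN, by norm_num, by norm_num, fun j => (hl _ (List.get_mem _ _)).le, h.entire, h.order, h.fe,
    h.one, fun n => ?_, fun n hn => ?_, h.eq⟩, hl⟩
  · by_cases hn : n = 0
    · rw [if_pos hn, norm_zero]
      positivity
    · rw [if_neg hn]
      have h1 : (1 : ℝ) ≤ (n : ℝ) ^ (1 / 2 : ℝ) :=
        Real.one_le_rpow (by exact_mod_cast Nat.one_le_iff_ne_zero.2 hn) (by norm_num)
      have h2 : (0 : ℝ) ≤ l.length := Nat.cast_nonneg _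
      exact (h.cb n).trans (by nlinarith)
  · rw [h.conv n hn]
    refine Finset.sum_congr rfl fun d hd => ?_
    rw [if_neg (Nat.pos_of_mem_divisors hd).ne']

end Pool.Agent.Y23.G.PR
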